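import Pool.Agent.N311.SH.Stm

/-! Project SH, part NF2 (helper901): the normal form for involutions. -/

set_option autoImplicit false
open Set Metric Filter Topology MeasureTheory
open scoped OnePoint

namespace Pool.Agent.N901.SH

open Pool.Agent.N311.SH

/-- two different points can be moved to `∞` and `0` -/
theorem move (x y : Sph) (h : x ≠ y) :
    ∃ M : Sph ≃ₜ Sph, M x = ∞ ∧ M y = ((0 : ℂ) : Sph) := by
  -- first move `x` to infinity
  obtain ⟨M₁, h1⟩ : ∃ M₁ : Sph ≃ₜ Sph, M₁ x = ∞ := by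
    induction x using OnePoint.rec with
    | infty => exact ⟨1, rfl⟩
    | coe z =>
      refine ⟨J * tr (-z), ?_⟩
      change J (tr (-z) (z : Sph)) = ∞
      rw [tr_coe, add_neg_cancel, J_zero]
  have h2 : M₁ y ≠ ∞ := by
    intro h3
    exact h (M₁.injective (h1.trans h3.symm))
  obtain ⟨y', hy'⟩ := OnePoint.ne_infty_iff_exists.1 h2
  refine ⟨tr (-y') * M₁, ?_, ?_⟩
  · change tr (-y') (M₁ x) = ∞
    rw [h1, tr_infty]
  · change tr (-y') (M₁ y) = _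
    rw [← hy', tr_coe, add_neg_cancel]

theorem nf2 (h : S_KL) : S_NF2 := by
  intro A hA hA1
  obtain ⟨x, hx⟩ : ∃ x, A x ≠ x := by
    by_contra hcon
    push Not at hcon
    exact hA1 (Homeomorph.ext hcon)
  have hAA : ∀ x, A (A x) = x := fun x => by
    have h1 : (A * A) x = x := by rw [hA]; rfl
    exact h1
  obtain ⟨M, hM1, hM2⟩ := move x (A x) (fun h1 => hx h1.symm)
  have hMM : ∀ x, M⁻¹ (M x) = x := fun x => M.symm_apply_apply x
  have hMM' : ∀ x, M (M⁻¹ x) = x := fun x => M.apply_symm_apply x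
  obtain ⟨A0, hA0⟩ : ∃ A0 : Sph ≃ₜ Sph, A0 = M * A * M⁻¹ := ⟨_, rfl⟩
  have hA0a : ∀ y, A0 y = M (A (M⁻¹ y)) := fun y => by rw [hA0]; rfl
  have h0i : A0 ∞ = ((0 : ℂ) : Sph) := by
    rw [hA0a, ← hM1, hMM, hM2]
  have h00 : ∀ y, A0 (A0 y) = y := by
    intro y
    rw [hA0a, hA0a, hMM, hAA, hMM']
  obtain ⟨k, hk1, hk0, δ, e, hδ, hk⟩ := h (A0 * J) (by
    change A0 (J ((0 : ℂ) : Sph)) = _
    rw [J_zero, h0i]) 1 one_pos
  obtain ⟨kk, hkk⟩ : ∃ kk : Sph ≃ₜ Sph, kk = J * ext k * J := ⟨_, rfl⟩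
  have hkka : ∀ y, kk y = J (ext k (J y)) := fun y => by rw [hkk]; rfl
  have hfix : ∀ w : ℂ, ‖w‖ ≤ 1 → kk (w : Sph) = (w : Sph) := by
    intro w hw
    rw [hkka]
    by_cases hw0 : w = 0
    · subst hw0
      rw [J_zero, ext_infty, J_infty]
    · rw [J_coe hw0, ext_coe, hk1, ← J_coe hw0, J_J]
      rw [norm_inv]
      exact (one_le_inv₀ (norm_pos_iff.2 hw0)).2 hw
  have hinf : kk ∞ = ∞ := by
    rw [hkka, J_infty, ext_coe, hk0, J_zero]
  have hkkinv : ∀ y, kk⁻¹ (kk y) = y := fun y => kk.symm_apply_apply y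
  have hkkinv' : ∀ y, kk (kk⁻¹ y) = y := fun y => kk.apply_symm_apply y
  have hfix' : ∀ w : ℂ, ‖w‖ ≤ 1 → kk⁻¹ (w : Sph) = (w : Sph) := by
    intro w hw
    conv_lhs => rw [← hfix w hw]
    exact hkkinv _
  obtain ⟨A1, hA1'⟩ : ∃ A1 : Sph ≃ₜ Sph, A1 = (kk⁻¹ * M) * A * (kk⁻¹ * M)⁻¹ := ⟨_, rfl⟩
  have hA1a : ∀ y, A1 y = kk⁻¹ (A0 (kk y)) := by
    intro y
    rw [hA1', hA0, mul_inv_rev, inv_inv]
    rfl
  have h11 : ∀ y, A1 (A1 y) = y := by
    intro y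
    rw [hA1a, hA1a, hkkinv', h00, hkkinv]
  have hinv : ∀ y, A1⁻¹ y = A1 y := by
    intro y
    conv_lhs => rw [← h11 y]
    exact A1.symm_apply_apply _
  have hbig : ∀ w : ℂ, max 2 (2 / δ) ≤ ‖w‖ → A1 (w : Sph) = (((cj e w)⁻¹ : ℂ) : Sph) := by
    intro w hw
    have hw2 : 2 ≤ ‖w‖ := le_trans (le_max_left _ _) hw
    have hwd : 2 / δ ≤ ‖w‖ := le_trans (le_max_right _ _) hw
    have hw0 : w ≠ 0 := by
      rintro rfl
      rw [norm_zero] at hw2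
      linarith
    have hwi : ‖w⁻¹‖ < δ := by
      rw [norm_inv, inv_lt_comm₀ (by linarith) hδ]
      refine lt_of_lt_of_le ?_ hwd
      rw [inv_eq_one_div]
      exact div_lt_div_of_pos_right one_lt_two hδ
    have h1 := hk w⁻¹ hwi
    rw [hA1a, hkka, J_coe hw0, ext_coe]
    change A0 (J ((k w⁻¹ : ℂ) : Sph)) = _ at h1
    rw [h1, cj_inv]
    refine hfix' _ ?_
    rw [norm_inv, norm_cj]
    exact inv_le_one_of_one_le₀ (by linarith)
  have hA1inf : A1 ∞ = ((0 : ℂ) : Sph) := by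
    rw [hA1a, hinf, h0i]
    exact hfix' 0 (by rw [norm_zero]; exact zero_le_one)
  refine ⟨kk⁻¹ * M, max 2 (2 / δ), 0, e, e, ?_⟩
  rw [← hA1']
  refine ⟨lt_of_lt_of_le two_pos (le_max_left _ _), hA1inf, ?_, fun w hw => ⟨hbig w hw, ?_⟩⟩
  · rw [hinv, hA1inf]
  · rw [hinv, hbig w hw, zero_add]

end Pool.Agent.N901.SH
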